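import Mathlib

/-!
Mordell's equation `1/w + 1/x + 1/y + 1/z + 1/(wxyz) = 0` in nonzero integers:
a complete description of the solution set by divisors of `(wx)^2 - (w+x)`, and the sharp-order
bound `max ≤ 25 * min ^ 4` for every solution which does not contain both `1` and `-1`.
-/

namespace Pool.Agent.Results.MP_d45172_nt.Description

/-- `(w,x,y,z)` is a solution of Mordell's equation in nonzero integers. -/
def Sol (w x y z : ℤ) : Prop :=
  w ≠ 0 ∧ x ≠ 0 ∧ y ≠ 0 ∧ z ≠ 0 ∧
    1 / (w : ℚ) + 1 / (x : ℚ) + 1 / (y : ℚ) + 1 / (z : ℚ) +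
      1 / ((w : ℚ) * (x : ℚ) * (y : ℚ) * (z : ℚ)) = 0

/-- The explicit quadruples with `w + x ≠ 0`: `w, x` are nonzero coprime integers, `A` is a
divisor of `N = (wx)^2 - (w+x)` with `A ≡ wx (mod w+x)`, and
`y = (A - wx)/(w+x)`, `z = (N/A - wx)/(w+x)`, both nonzero. -/
def DivisorSol (w x y z : ℤ) : Prop :=
  w ≠ 0 ∧ x ≠ 0 ∧ w + x ≠ 0 ∧ IsCoprime w x ∧
    ∃ A : ℤ, A ∣ (w * x) ^ 2 - (w + x) ∧ (w + x) ∣ A - w * x ∧
      A ≠ w * x ∧ ((w * x) ^ 2 - (w + x)) / A ≠ w * x ∧
      y = (A - w * x) / (w + x) ∧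
      z = (((w * x) ^ 2 - (w + x)) / A - w * x) / (w + x)

theorem sol_iff (w x y z : ℤ) : Sol w x y z ↔
    (w ≠ 0 ∧ x ≠ 0 ∧ y ≠ 0 ∧ z ≠ 0 ∧ x * y * z + w * y * z + w * x * z + w * x * y + 1 = 0) := by
  unfold Sol
  constructor
  · rintro ⟨hw, hx, hy, hz, h⟩
    refine ⟨hw, hx, hy, hz, ?_⟩
    have hw' : (w : ℚ) ≠ 0 := by exact_mod_cast hw
    have hx' : (x : ℚ) ≠ 0 := by exact_mod_cast hx
    have hy' : (y : ℚ) ≠ 0 := by exact_mod_cast hy
    have hz' : (z : ℚ) ≠ 0 := by exact_mod_cast hz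
    have key : ((x * y * z + w * y * z + w * x * z + w * x * y + 1 : ℤ) : ℚ) = 0 := by
      have : ((x * y * z + w * y * z + w * x * z + w * x * y + 1 : ℤ) : ℚ)
          = (w * x * y * z : ℚ) * (1 / (w : ℚ) + 1 / (x : ℚ) + 1 / (y : ℚ) + 1 / (z : ℚ) +
            1 / ((w : ℚ) * (x : ℚ) * (y : ℚ) * (z : ℚ))) := by
        push_cast
        field_simp
      rw [this, h, mul_zero]
    exact_mod_cast key
  · rintro ⟨hw, hx, hy, hz, h⟩
    refine ⟨hw, hx, hy, hz, ?_⟩
    have hw' : (w : ℚ) ≠ 0 := by exact_mod_cast hw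
    have hx' : (x : ℚ) ≠ 0 := by exact_mod_cast hx
    have hy' : (y : ℚ) ≠ 0 := by exact_mod_cast hy
    have hz' : (z : ℚ) ≠ 0 := by exact_mod_cast hz
    have h' : ((x : ℚ) * y * z + w * y * z + w * x * z + w * x * y + 1) = 0 := by exact_mod_cast h
    have : 1 / (w : ℚ) + 1 / (x : ℚ) + 1 / (y : ℚ) + 1 / (z : ℚ) +
      1 / ((w : ℚ) * (x : ℚ) * (y : ℚ) * (z : ℚ))
        = ((x : ℚ) * y * z + w * y * z + w * x * z + w * x * y + 1) / (w * x * y * z) := by
      field_simp
    rw [this, h', zero_div]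

/-- `(wx)^2 = w + x` has no solution in nonzero integers. -/
theorem sq_ne (w x : ℤ) (hw : w ≠ 0) (hx : x ≠ 0) : (w * x) ^ 2 - (w + x) ≠ 0 := by
  intro h
  have h1 : (w * x) ^ 2 = w + x := by linarith
  have hw2 : 1 ≤ w ^ 2 := by
    have := Int.one_le_abs hw
    nlinarith [sq_abs w, abs_nonneg w]
  have hx2 : 1 ≤ x ^ 2 := by
    have := Int.one_le_abs hx
    nlinarith [sq_abs x, abs_nonneg x]
  -- `(w^2 - 1)(x^2 - 1) ≥ 0`, so `w + x ≥ w^2 + x^2 - 1`
  have h2 : w ^ 2 + x ^ 2 - 1 ≤ w + x := by nlinarith [mul_nonneg (sub_nonneg.2 hw2) (sub_nonneg.2 hx2)]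
  have h3 : w ≤ 1 := by nlinarith [sq_nonneg (x - 1), sq_nonneg x, sq_nonneg (w - 1)]
  have h4 : x ≤ 1 := by nlinarith [sq_nonneg (w - 1), sq_nonneg w, sq_nonneg (x - 1)]
  have h5 : 0 ≤ w := by nlinarith [sq_nonneg (x - 1), sq_nonneg x, sq_nonneg (w - 1)]
  have h6 : 0 ≤ x := by nlinarith [sq_nonneg (w - 1), sq_nonneg w, sq_nonneg (x - 1)]
  have hw1 : w = 1 := by omega
  have hx1 : x = 1 := by omega
  subst hw1; subst hx1
  norm_num at h

theorem coprime_of_eq (w x y z : ℤ)
    (h : x * y * z + w * y * z + w * x * z + w * x * y + 1 = 0) : IsCoprime w x :=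
  ⟨-(y * z + x * z + x * y), -(y * z), by linear_combination -h⟩

theorem coprime_sum (w x : ℤ) (h : IsCoprime w x) : IsCoprime (w + x) (w * x) := by
  have h1 : IsCoprime (w + x) w := by
    have := (IsCoprime.add_mul_left_left (x := x) (y := w) h.symm 1)
    simpa [add_comm] using this
  have h2 : IsCoprime (w + x) x := by
    have := (IsCoprime.add_mul_left_left (x := w) (y := x) h 1)
    simpa using this
  exact IsCoprime.mul_right h1 h2

theorem description (w x y z : ℤ) : Sol w x y z ↔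
    (((w = 1 ∧ x = -1) ∨ (w = -1 ∧ x = 1)) ∧ y ≠ 0 ∧ z ≠ 0 ∧ y + z = 1) ∨
      DivisorSol w x y z := by
  rw [sol_iff]
  constructor
  · rintro ⟨hw, hx, hy, hz, h⟩
    by_cases hs : w + x = 0
    · left
      have hx' : x = -w := by linarith
      subst hx'
      have h1 : w * w * (y + z) = 1 := by linear_combination -h
      have h2 : w * (w * (y + z)) = 1 := by rw [← mul_assoc]; exact h1
      have hw1 : w = 1 ∨ w = -1 := Int.isUnit_iff.1 (IsUnit.of_mul_eq_one _ h2)
      rcases hw1 with rfl | rfl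
      · exact ⟨Or.inl ⟨rfl, by norm_num⟩, hy, hz, by linarith⟩
      · exact ⟨Or.inr ⟨rfl, by norm_num⟩, hy, hz, by linarith⟩
    · right
      have hAB : ((w + x) * y + w * x) * ((w + x) * z + w * x) = (w * x) ^ 2 - (w + x) := by
        linear_combination (w + x) * h
      have hN := sq_ne w x hw hx
      have hA0 : (w + x) * y + w * x ≠ 0 := by
        intro h0
        rw [h0, zero_mul] at hAB
        exact hN hAB.symm
      have hdiv : ((w * x) ^ 2 - (w + x)) / ((w + x) * y + w * x) = (w + x) * z + w * x := by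
        rw [← hAB]
        exact Int.mul_ediv_cancel_left _ hA0
      refine ⟨hw, hx, hs, coprime_of_eq w x y z h, (w + x) * y + w * x, ⟨_, hAB.symm⟩,
        ⟨y, by ring⟩, ?_, ?_, ?_, ?_⟩
      · intro h0
        have : (w + x) * y = 0 := by linarith
        rcases mul_eq_zero.1 this with h' | h'
        · exact hs h'
        · exact hy h'
      · rw [hdiv]
        intro h0
        have : (w + x) * z = 0 := by linarith
        rcases mul_eq_zero.1 this with h' | h'
        · exact hs h'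
        · exact hz h'
      · rw [show (w + x) * y + w * x - w * x = (w + x) * y by ring,
          Int.mul_ediv_cancel_left _ hs]
      · rw [hdiv, show (w + x) * z + w * x - w * x = (w + x) * z by ring,
          Int.mul_ediv_cancel_left _ hs]
  · rintro (⟨h1, hy, hz, h2⟩ | ⟨hw, hx, hs, hc, A, hA, hAs, hA1, hB1, hy, hz⟩)
    · rcases h1 with ⟨rfl, rfl⟩ | ⟨rfl, rfl⟩
      · exact ⟨by norm_num, by norm_num, hy, hz, by linear_combination -h2⟩
      · exact ⟨by norm_num, by norm_num, hy, hz, by linear_combination -h2⟩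
    · obtain ⟨B, hB⟩ := hA
      have hN := sq_ne w x hw hx
      have hA0 : A ≠ 0 := by
        rintro rfl
        rw [zero_mul] at hB
        exact hN hB
      have hdiv : ((w * x) ^ 2 - (w + x)) / A = B := by
        rw [hB]
        exact Int.mul_ediv_cancel_left _ hA0
      rw [hdiv] at hB1 hz
      obtain ⟨k, hk⟩ := hAs
      have hAk : A = (w + x) * k + w * x := by linarith
      have hyk : y = k := by
        rw [hy, hk, Int.mul_ediv_cancel_left _ hs]
      subst hyk
      -- `B ≡ wx` modulo `w + x`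
      have hdB : (w + x) ∣ B - w * x := by
        have h3 : (w + x) ∣ (w * x) * (B - w * x) := by
          refine ⟨-1 - y * B, ?_⟩
          have : A * B = (w * x) ^ 2 - (w + x) := hB.symm
          rw [hAk] at this
          linear_combination this
        exact (coprime_sum w x hc).dvd_of_dvd_mul_left h3
      obtain ⟨l, hl⟩ := hdB
      have hzl : z = l := by
        rw [hz, hl, Int.mul_ediv_cancel_left _ hs]
      subst hzl
      have hy0 : y ≠ 0 := by
        rintro rfl
        apply hA1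
        rw [hAk]; ring
      have hz0 : z ≠ 0 := by
        rintro rfl
        apply hB1
        linarith
      refine ⟨hw, hx, hy0, hz0, ?_⟩
      have hBl : B = (w + x) * z + w * x := by linarith
      have h4 : (w + x) * (x * y * z + w * y * z + w * x * z + w * x * y + 1) = 0 := by
        have : A * B = (w * x) ^ 2 - (w + x) := hB.symm
        rw [hAk, hBl] at this
        linear_combination this
      rcases mul_eq_zero.1 h4 with h' | h'
      · exact absurd h' hs
      · exact h'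

/-- For `|w| ≤ |x| ≤ |y| ≤ |z|` the second entry satisfies `|x| ≤ 4 |w|`. -/
theorem abs_x_le (w x y z : ℤ) (hw : w ≠ 0) (hy : y ≠ 0) (hz : z ≠ 0)
    (h : x * y * z + w * y * z + w * x * z + w * x * y + 1 = 0)
    (hxy : |x| ≤ |y|) (hyz : |y| ≤ |z|) : |x| ≤ 4 * |w| := by
  have h1 : x * y * z = -(w * (y * z) + w * (x * z) + w * (x * y) + 1) := by linear_combination h
  have hw1 : 1 ≤ |w| := Int.one_le_abs hw
  have hy1 : 1 ≤ |y| := Int.one_le_abs hy
  have hz1 : 1 ≤ |z| := Int.one_le_abs hz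
  have h2 : |x| * (|y| * |z|) ≤ |w| * (|y| * |z|) + |w| * (|x| * |z|) + |w| * (|x| * |y|) + 1 := by
    have : |x * y * z| = |x| * (|y| * |z|) := by rw [abs_mul, abs_mul, mul_assoc]
    rw [← this, h1, abs_neg]
    calc |w * (y * z) + w * (x * z) + w * (x * y) + 1|
        ≤ |w * (y * z) + w * (x * z) + w * (x * y)| + |1| := abs_add_le _ _
      _ ≤ (|w * (y * z) + w * (x * z)| + |w * (x * y)|) + |1| := by
          gcongr; exact abs_add_le _ _
      _ ≤ ((|w * (y * z)| + |w * (x * z)|) + |w * (x * y)|) + |1| := by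
          gcongr; exact abs_add_le _ _
      _ = _ := by simp [abs_mul]
  have hyz0 : 1 ≤ |y| * |z| := by nlinarith
  have h3 : |x| * |z| ≤ |y| * |z| := by
    exact mul_le_mul_of_nonneg_right hxy (abs_nonneg z)
  have h4 : |x| * |y| ≤ |y| * |z| := by
    calc |x| * |y| ≤ |y| * |y| := mul_le_mul_of_nonneg_right hxy (abs_nonneg y)
      _ ≤ |y| * |z| := mul_le_mul_of_nonneg_left hyz (abs_nonneg y)
  have h5 : |x| * (|y| * |z|) ≤ (4 * |w|) * (|y| * |z|) := by
    have ha : |w| * (|x| * |z|) ≤ |w| * (|y| * |z|) := mul_le_mul_of_nonneg_left h3 (abs_nonneg w)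
    have hb : |w| * (|x| * |y|) ≤ |w| * (|y| * |z|) := mul_le_mul_of_nonneg_left h4 (abs_nonneg w)
    have hc : 1 ≤ |w| * (|y| * |z|) := by nlinarith
    linarith
  exact le_of_mul_le_mul_right h5 (by linarith)

/-- Every solution ordered by absolute value has `w + x = 0` or `|z| ≤ 25 |w|^4`. -/
theorem bound (w x y z : ℤ) (hsol : Sol w x y z) (hwx : |w| ≤ |x|) (hxy : |x| ≤ |y|)
    (hyz : |y| ≤ |z|) : w + x = 0 ∨ |z| ≤ 25 * |w| ^ 4 := by
  obtain ⟨hw, hx, hy, hz, h⟩ := (sol_iff w x y z).1 hsol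
  by_cases hs : w + x = 0
  · exact Or.inl hs
  · right
    have hx4 := abs_x_le w x y z hw hy hz h hxy hyz
    have hw1 : 1 ≤ |w| := Int.one_le_abs hw
    have hAB : ((w + x) * y + w * x) * ((w + x) * z + w * x) = (w * x) ^ 2 - (w + x) := by
      linear_combination (w + x) * h
    have hN := sq_ne w x hw hx
    have hA0 : (w + x) * y + w * x ≠ 0 := by
      intro h0
      rw [h0, zero_mul] at hAB
      exact hN hAB.symm
    have hp : |w * x| ≤ 4 * |w| ^ 2 := by
      rw [abs_mul]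
      nlinarith [abs_nonneg w]
    have hsb : |w + x| ≤ 5 * |w| := by
      calc |w + x| ≤ |w| + |x| := abs_add_le _ _
        _ ≤ 5 * |w| := by linarith
    have hNb : |(w * x) ^ 2 - (w + x)| ≤ 16 * |w| ^ 4 + 5 * |w| := by
      calc |(w * x) ^ 2 - (w + x)| ≤ |(w * x) ^ 2| + |w + x| := abs_sub _ _
        _ = |w * x| ^ 2 + |w + x| := by rw [abs_pow]
        _ ≤ (4 * |w| ^ 2) ^ 2 + 5 * |w| := by gcongr
        _ = 16 * |w| ^ 4 + 5 * |w| := by ring
    have hB : |(w + x) * z + w * x| ≤ 16 * |w| ^ 4 + 5 * |w| := by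
      have h1 : |(w + x) * y + w * x| * |(w + x) * z + w * x| = |(w * x) ^ 2 - (w + x)| := by
        rw [← abs_mul, hAB]
      have h2 : 1 ≤ |(w + x) * y + w * x| := Int.one_le_abs hA0
      have h3 : 1 * |(w + x) * z + w * x| ≤ |(w + x) * y + w * x| * |(w + x) * z + w * x| :=
        mul_le_mul_of_nonneg_right h2 (abs_nonneg _)
      linarith
    have hz1 : |(w + x) * z| ≤ 16 * |w| ^ 4 + 5 * |w| + 4 * |w| ^ 2 := by
      calc |(w + x) * z| = |((w + x) * z + w * x) - w * x| := by ring_nf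
        _ ≤ |(w + x) * z + w * x| + |w * x| := abs_sub _ _
        _ ≤ _ := by linarith
    have hz2 : |z| ≤ |(w + x) * z| := by
      rw [abs_mul]
      have : 1 ≤ |w + x| := Int.one_le_abs hs
      nlinarith [abs_nonneg z]
    have hw2 : |w| ≤ |w| ^ 4 := by
      calc |w| = |w| ^ 1 := (pow_one _).symm
        _ ≤ |w| ^ 4 := pow_le_pow_right₀ hw1 (by norm_num)
    have hw3 : |w| ^ 2 ≤ |w| ^ 4 := pow_le_pow_right₀ hw1 (by norm_num)
    linarith

/-- **Description of all solutions of Mordell's equation.**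
(1) `(w,x,y,z)` is a solution iff `{w,x} = {1,-1}` and `y + z = 1` (with `y, z ≠ 0`), or it is
one of the explicit quadruples coming from a divisor `A` of `(wx)^2 - (w+x)`.
(2) If `|w| ≤ |x| ≤ |y| ≤ |z|` (which, the equation being symmetric, one can assume), then
`w + x = 0` or `|z| ≤ 25 |w|^4`. -/
theorem result :
    (∀ w x y z : ℤ, Sol w x y z ↔
      (((w = 1 ∧ x = -1) ∨ (w = -1 ∧ x = 1)) ∧ y ≠ 0 ∧ z ≠ 0 ∧ y + z = 1) ∨
        DivisorSol w x y z) ∧
    (∀ w x y z : ℤ, Sol w x y z → |w| ≤ |x| → |x| ≤ |y| → |y| ≤ |z| →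
      w + x = 0 ∨ |z| ≤ 25 * |w| ^ 4) :=
  ⟨description, bound⟩

end Pool.Agent.Results.MP_d45172_nt.Description
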